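import Pool.Agent.TH304.MI.Stm

/-!
# The circle lemma
-/

set_option autoImplicit false

open MeasureTheory Set Metric Filter Topology
open scoped ENNReal Real

namespace Pool.Agent.TH263.MI.Circ

noncomputable section

open Pool.Agent.TH304.MI

theorem tel (a : ℕ → ℝ) (p : ℕ) : ∀ q : ℕ, p ≤ q →
    |a q - a p| ≤ ∑ i ∈ Finset.range q, |a (i + 1) - a i| - ∑ i ∈ Finset.range p, |a (i + 1) - a i| := by
  intro q hq
  induction q, hq using Nat.le_induction with
  | base => simp
  | succ q hq ih =>
    rw [Finset.sum_range_succ]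
    have : |a (q + 1) - a p| ≤ |a (q + 1) - a q| + |a q - a p| := abs_sub_le _ _ _
    linarith

/-- a cyclic sequence of zeros and ones which is not constant has at least two jumps -/
theorem jumps {a : ℕ → ℝ} {n : ℕ} (hn : a n = a 0) {j k : ℕ} (hj : j < n) (hk : k < n)
    (h : 1 ≤ |a k - a j|) : 2 ≤ ∑ i ∈ Finset.range n, |a (i + 1) - a i| := by
  wlog hjk : j ≤ k generalizing j k
  · exact this hk hj (by rw [abs_sub_comm]; exact h) (by omega)
  have h1 := tel a 0 j (Nat.zero_le _)
  have h2 := tel a j k hjk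
  have h3 := tel a k n hk.le
  have h4 : |a k - a j| ≤ |a n - a k| + |a j - a 0| := by
    rw [hn]
    have := abs_sub_le (a k) (a 0) (a j)
    rw [abs_sub_comm (a 0) (a k), abs_sub_comm (a j) (a 0)]
    exact this
  simp only [Finset.range_zero, Finset.sum_empty, sub_zero] at h1
  linarith

/-- folding of an integral over a period -/
theorem fold {n : ℕ} (hn : 0 < n) {F : ℝ → ℝ} (hF : ∀ a b, IntervalIntegrable F volume a b) :
    ∫ θ in (-π)..π, F θ =
      ∫ θ in (-π)..(-π + 2 * π / n), ∑ j ∈ Finset.range n, F (θ + j * (2 * π / n)) := by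
  have hn0 : (0 : ℝ) < n := by exact_mod_cast hn
  obtain ⟨h, hh⟩ : ∃ h : ℝ, h = 2 * π / n := ⟨_, rfl⟩
  rw [← hh]
  have h1 := intervalIntegral.sum_integral_adjacent_intervals (f := F) (μ := volume)
    (a := fun k : ℕ => -π + k * h) (n := n) (fun k _ => hF _ _)
  have e1 : -π + ((n : ℕ) : ℝ) * h = π := by rw [hh]; field_simp; ring
  simp only [Nat.cast_zero, zero_mul, add_zero, e1] at h1
  rw [← h1, intervalIntegral.integral_finsetSum]
  · apply Finset.sum_congr rfl
    intro k _
    rw [intervalIntegral.integral_comp_add_right]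
    congr 1
    push_cast
    ring
  · intro k _
    have := (hF (-π + k * h) (-π + h + k * h)).comp_add_right (k * h)
    simpa using this

theorem t_circ : S_circ := by
  intro S hS hper hpos hlt δ hδ
  obtain ⟨f, hf⟩ : ∃ f : ℝ → ℝ, f = S.indicator (fun _ => (1 : ℝ)) := ⟨_, rfl⟩
  rw [← hf]
  have hf01 : ∀ x, f x = 0 ∨ f x = 1 := by
    intro x
    rw [hf]
    by_cases hx : x ∈ S
    · right; rw [indicator_of_mem hx]
    · left; rw [indicator_of_notMem hx]
  have hfm : Measurable f := by rw [hf]; exact measurable_const.indicator hS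
  have hfp : ∀ x, f (x + 2 * π) = f x := by
    intro x
    rw [hf]
    by_cases hx : x ∈ S
    · rw [indicator_of_mem hx, indicator_of_mem ((hper x).2 hx)]
    · rw [indicator_of_notMem hx, indicator_of_notMem (fun h => hx ((hper x).1 h))]
  have hfi : ∀ a b, IntervalIntegrable f volume a b := by
    intro a b
    have hb : ∀ x, ‖f x‖ ≤ 1 := by
      intro x
      rcases hf01 x with h | h <;> rw [h] <;> simp
    exact ⟨Integrable.of_bound hfm.aestronglyMeasurable 1 (ae_of_all _ hb),
      Integrable.of_bound hfm.aestronglyMeasurable 1 (ae_of_all _ hb)⟩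
  have hπ := Real.pi_pos
  have hπ4 := Real.pi_lt_four
  -- the mean
  have hint : ∫ θ in (-π)..π, f θ = (volume (S ∩ Ioo (-π) π)).toReal := by
    rw [intervalIntegral.integral_of_le (by linarith), integral_Ioc_eq_integral_Ioo, hf,
      integral_indicator hS, Measure.restrict_restrict hS]
    simp [Measure.real]
  obtain ⟨m, hm⟩ : ∃ m : ℝ, m = ∫ θ in (-π)..π, f θ := ⟨_, rfl⟩
  have hm0 : 0 < m := by
    rw [hm, hint]
    exact ENNReal.toReal_pos hpos.ne' (ne_top_of_lt hlt)
  have hm1 : m < 2 * π := by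
    rw [hm, hint]
    have := (ENNReal.toReal_lt_toReal (ne_top_of_lt hlt) ENNReal.ofReal_ne_top).2 hlt
    rwa [ENNReal.toReal_ofReal (by positivity)] at this
  obtain ⟨κ, hκ⟩ : ∃ κ : ℝ, κ = min m (2 * π - m) := ⟨_, rfl⟩
  have hκ0 : 0 < κ := by rw [hκ]; exact lt_min hm0 (by linarith)
  -- approximation by a continuous function
  obtain ⟨ε, hε⟩ : ∃ ε : ℝ, ε = κ * δ / 20 := ⟨_, rfl⟩
  have hε0 : 0 < ε := by rw [hε]; positivity
  have hf0 : Integrable ((Ioo (-π) π).indicator f) volume := by
    rw [integrable_indicator_iff measurableSet_Ioo]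
    exact ((hfi (-π) π).1).mono_set Ioo_subset_Ioc_self
  obtain ⟨g, hgc, hg1, hg2, hg3⟩ := hf0.exists_hasCompactSupport_integral_sub_le hε0
  have hgi : ∀ a b, IntervalIntegrable g volume a b := fun a b => hg2.intervalIntegrable a b
  have hfg : ∫ θ in (-π)..π, |f θ - g θ| ≤ ε := by
    refine le_trans ?_ hg1
    rw [intervalIntegral.integral_of_le (by linarith), integral_Ioc_eq_integral_Ioo]
    have e1 : ∫ θ in Ioo (-π) π, |f θ - g θ| =
        ∫ θ in Ioo (-π) π, ‖(Ioo (-π) π).indicator f θ - g θ‖ := by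
      apply setIntegral_congr_fun measurableSet_Ioo
      intro θ hθ
      simp only
      rw [indicator_of_mem hθ, Real.norm_eq_abs]
    rw [e1]
    exact setIntegral_le_integral (hf0.sub hg3).norm (ae_of_all _ fun x => norm_nonneg _)
  have hug := hgc.uniformContinuous_of_continuous hg2
  rw [Metric.uniformContinuous_iff] at hug
  obtain ⟨η, hη, hgη⟩ := hug ε hε0
  have hev : ∀ᶠ n : ℕ in atTop, 2 * π / n < η :=
    (tendsto_const_div_atTop_nhds_zero_nat (2 * π)).eventually (gt_mem_nhds hη)
  filter_upwards [hev, eventually_ge_atTop 1] with n hnη hn1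
  have hn0 : (0 : ℝ) < n := by exact_mod_cast hn1
  obtain ⟨h, hh⟩ : ∃ h : ℝ, h = 2 * π / n := ⟨_, rfl⟩
  have hh0 : 0 < h := by rw [hh]; positivity
  have hnh : n * h = 2 * π := by rw [hh]; field_simp
  rw [← hh] at hnη
  rw [← integral_Ioc_eq_integral_Ioo, ← intervalIntegral.integral_of_le (by linarith), ← hh]
  -- the functions on the short interval
  obtain ⟨N, hN⟩ : ∃ N : ℝ → ℝ, N = fun θ => ∑ j ∈ Finset.range n, f (θ + j * h) := ⟨_, rfl⟩
  obtain ⟨E, hE⟩ : ∃ E : ℝ → ℝ, E = fun θ => ∑ j ∈ Finset.range n,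
      |f (θ + j * h) - g (θ + j * h)| := ⟨_, rfl⟩
  have hFi : ∀ a b, IntervalIntegrable (fun θ => |f θ - g θ|) volume a b := fun a b =>
    ((hfi a b).sub (hgi a b)).abs
  have hDi : ∀ a b, IntervalIntegrable (fun θ => |f (θ + h) - f θ|) volume a b := by
    intro a b
    have h1 : IntervalIntegrable (fun θ => f (θ + h)) volume a b := by
      have := (hfi (a + h) (b + h)).comp_add_right h
      simpa using this
    exact (h1.sub (hfi a b)).abs
  have hfoldE : ∫ θ in (-π)..(-π + h), E θ ≤ ε := by
    have := fold hn1 hFi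
    rw [← hh] at this
    rw [hE, ← this]
    exact hfg
  have hfoldg : ∫ θ in (-π)..(-π + h), ∑ j ∈ Finset.range n, g (θ + j * h) =
      ∫ θ in (-π)..π, g θ := by
    have := fold hn1 hgi
    rw [← hh] at this
    exact this.symm
  have hdiff : |(∫ θ in (-π)..π, f θ) - ∫ θ in (-π)..π, g θ| ≤ ε := by
    rw [← intervalIntegral.integral_sub (hfi _ _) (hgi _ _)]
    exact (intervalIntegral.abs_integral_le_integral_abs (by linarith)).trans hfg
  have hsumi : ∀ F : ℝ → ℝ, (∀ a b, IntervalIntegrable F volume a b) → ∀ a b,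
      IntervalIntegrable (fun θ => ∑ j ∈ Finset.range n, F (θ + j * h)) volume a b := by
    intro F hF a b
    have key : IntervalIntegrable (∑ j ∈ Finset.range n, fun θ => F (θ + j * h)) volume a b := by
      apply IntervalIntegrable.sum
      intro j _
      have := (hF (a + j * h) (b + j * h)).comp_add_right (j * h)
      simpa using this
    refine key.congr (fun θ _ => ?_)
    simp only [Finset.sum_apply]
  -- the Riemann sums of g
  have hR : ∀ θ ∈ Icc (-π) (-π + h),
      |h * ∑ j ∈ Finset.range n, g (θ + j * h) - ∫ θ in (-π)..π, g θ| ≤ 2 * π * ε := by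
    intro θ hθ
    have h1 : ∫ s in (-π)..(-π + h), ((∑ j ∈ Finset.range n, g (θ + j * h)) -
        ∑ j ∈ Finset.range n, g (s + j * h)) =
        h * ∑ j ∈ Finset.range n, g (θ + j * h) - ∫ θ in (-π)..π, g θ := by
      rw [intervalIntegral.integral_sub (by simp) (hsumi g hgi _ _), hfoldg,
        intervalIntegral.integral_const, smul_eq_mul]
      ring
    rw [← h1, ← Real.norm_eq_abs]
    have h2 := intervalIntegral.norm_integral_le_of_norm_le_const (a := -π) (b := -π + h)
      (C := n * ε) (f := fun s => (∑ j ∈ Finset.range n, g (θ + j * h)) -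
        ∑ j ∈ Finset.range n, g (s + j * h)) (by
        intro s hs
        rw [uIoc_of_le (by linarith)] at hs
        rw [← Finset.sum_sub_distrib]
        refine (norm_sum_le _ _).trans ?_
        calc ∑ j ∈ Finset.range n, ‖g (θ + j * h) - g (s + j * h)‖
            ≤ ∑ j ∈ Finset.range n, ε := by
              apply Finset.sum_le_sum
              intro j _
              have h3 := hgη (a := θ + j * h) (b := s + j * h) (by
                rw [Real.dist_eq]
                have e : θ + j * h - (s + j * h) = θ - s := by ring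
                rw [e, abs_lt]
                constructor <;> linarith [hs.1, hs.2, hθ.1, hθ.2])
              rw [← dist_eq_norm]
              exact h3.le
          _ = n * ε := by rw [Finset.sum_const, Finset.card_range, nsmul_eq_mul])
    refine h2.trans ?_
    have e : -π + h - -π = h := by ring
    rw [e, abs_of_pos hh0]
    have : n * ε * h = 2 * π * ε := by rw [← hnh]; ring
    linarith
  -- the pointwise estimate of the number of the points in S
  have hNE : ∀ θ ∈ Icc (-π) (-π + h), |h * N θ - m| ≤ h * E θ + (2 * π + 1) * ε := by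
    intro θ hθ
    have h1 := hR θ hθ
    have h2 : |∑ j ∈ Finset.range n, f (θ + j * h) - ∑ j ∈ Finset.range n, g (θ + j * h)| ≤ E θ := by
      rw [← Finset.sum_sub_distrib, hE]
      exact Finset.abs_sum_le_sum_abs _ _
    have h3 : |h * N θ - h * ∑ j ∈ Finset.range n, g (θ + j * h)| ≤ h * E θ := by
      rw [← mul_sub, abs_mul, abs_of_pos hh0, hN]
      exact mul_le_mul_of_nonneg_left h2 hh0.le
    have h4 : |(∫ θ in (-π)..π, g θ) - m| ≤ ε := by
      rw [hm, abs_sub_comm]
      exact hdiff
    rw [abs_le] at h1 h3 h4 ⊢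
    constructor <;> linarith [h1.1, h1.2, h3.1, h3.2, h4.1, h4.2]
  -- the jumps
  have hT : ∀ θ, 2 - 2 / κ * |h * N θ - m| ≤
      ∑ j ∈ Finset.range n, |f (θ + j * h + h) - f (θ + j * h)| := by
    intro θ
    by_cases hall : ∃ j < n, ∃ k < n, f (θ + j * h) ≠ f (θ + k * h)
    · obtain ⟨j, hj, k, hk, hjk⟩ := hall
      have h1 : 1 ≤ |f (θ + k * h) - f (θ + j * h)| := by
        rcases hf01 (θ + j * h) with h2 | h2 <;> rcases hf01 (θ + k * h) with h3 | h3 <;>
          rw [h2, h3] at hjk ⊢ <;> simp at hjk ⊢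
      have h2 := jumps (a := fun i : ℕ => f (θ + i * h)) (n := n) (by
        have e : θ + (n : ℝ) * h = θ + ((0 : ℕ) : ℝ) * h + 2 * π := by rw [hnh]; simp
        rw [e, hfp]) hj hk h1
      have h3 : 0 ≤ 2 / κ * |h * N θ - m| := by positivity
      have h4 : ∀ j : ℕ, f (θ + j * h + h) = f (θ + ((j + 1 : ℕ) : ℝ) * h) := by
        intro j
        congr 1
        push_cast
        ring
      simp only [h4]
      linarith
    · push Not at hall
      have h0 : 0 ≤ ∑ j ∈ Finset.range n, |f (θ + j * h + h) - f (θ + j * h)| :=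
        Finset.sum_nonneg fun _ _ => abs_nonneg _
      refine le_trans ?_ h0
      have h1 : N θ = n * f (θ + ((0 : ℕ) : ℝ) * h) := by
        rw [hN]
        simp only
        rw [Finset.sum_congr rfl (fun j hj => hall j (Finset.mem_range.1 hj) 0 (by omega)),
          Finset.sum_const, Finset.card_range, nsmul_eq_mul]
      have h2 : κ ≤ |h * N θ - m| := by
        have hk1 : κ ≤ m := by rw [hκ]; exact min_le_left _ _
        have hk2 : κ ≤ 2 * π - m := by rw [hκ]; exact min_le_right _ _
        rcases hf01 (θ + ((0 : ℕ) : ℝ) * h) with h3 | h3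
        · rw [h1, h3]
          rw [show h * (n * (0 : ℝ)) - m = -m by ring, abs_neg, abs_of_pos hm0]
          exact hk1
        · rw [h1, h3]
          rw [show h * (n * (1 : ℝ)) - m = n * h - m by ring, hnh, abs_of_pos (by linarith)]
          exact hk2
      have h3 : 2 ≤ 2 / κ * |h * N θ - m| := by
        calc (2 : ℝ) = 2 / κ * κ := by field_simp
          _ ≤ _ := mul_le_mul_of_nonneg_left h2 (by positivity)
      linarith
  -- integration
  have hfoldD := fold hn1 hDi
  rw [← hh] at hfoldD
  rw [hfoldD]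
  have hNi : ∀ a b, IntervalIntegrable N volume a b := by rw [hN]; exact hsumi f hfi
  have hEi : ∀ a b, IntervalIntegrable E volume a b := by rw [hE]; exact hsumi _ hFi
  have hlow : ∫ θ in (-π)..(-π + h), (2 - 2 / κ * (h * E θ + (2 * π + 1) * ε)) ≤
      ∫ θ in (-π)..(-π + h), ∑ j ∈ Finset.range n, |f (θ + j * h + h) - f (θ + j * h)| := by
    apply intervalIntegral.integral_mono_on (by linarith)
    · apply IntervalIntegrable.sub (by simp)
      apply IntervalIntegrable.const_mul
      exact ((hEi _ _).const_mul h).add (by simp)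
    · exact hsumi _ hDi _ _
    · intro θ hθ
      refine le_trans ?_ (hT θ)
      have := mul_le_mul_of_nonneg_left (hNE θ hθ) (show 0 ≤ 2 / κ by positivity)
      linarith
  have hval : ∫ θ in (-π)..(-π + h), (2 - 2 / κ * (h * E θ + (2 * π + 1) * ε)) =
      2 * h - 2 / κ * (h * (∫ θ in (-π)..(-π + h), E θ) + (2 * π + 1) * ε * h) := by
    rw [intervalIntegral.integral_sub (by simp)
      ((((hEi _ _).const_mul h).add (by simp)).const_mul _),
      intervalIntegral.integral_const_mul, intervalIntegral.integral_add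
      ((hEi _ _).const_mul h) (by simp), intervalIntegral.integral_const_mul,
      intervalIntegral.integral_const, intervalIntegral.integral_const]
    simp only [smul_eq_mul]
    ring
  have hfin : 2 * h - 2 / κ * (h * ε + (2 * π + 1) * ε * h) ≤
      ∫ θ in (-π)..(-π + h), ∑ j ∈ Finset.range n, |f (θ + j * h + h) - f (θ + j * h)| := by
    refine le_trans ?_ hlow
    rw [hval]
    have h1 : h * (∫ θ in (-π)..(-π + h), E θ) ≤ h * ε := mul_le_mul_of_nonneg_left hfoldE hh0.le
    have h2 := mul_le_mul_of_nonneg_left h1 (show 0 ≤ 2 / κ by positivity)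
    linarith
  have h5 := mul_le_mul_of_nonneg_left hfin (show 0 ≤ (n : ℝ) / (2 * π) by positivity)
  refine le_trans ?_ h5
  have h6 : (n : ℝ) / (2 * π) * (2 * h - 2 / κ * (h * ε + (2 * π + 1) * ε * h)) =
      2 - 2 / κ * ((2 * π + 2) * ε) := by
    have e : (n : ℝ) / (2 * π) * (2 * h - 2 / κ * (h * ε + (2 * π + 1) * ε * h)) =
      (n * h) / (2 * π) * (2 - 2 / κ * ((2 * π + 2) * ε)) := by ring
    rw [e, hnh]
    field_simp
  rw [h6, hε]
  have h7 : 2 / κ * ((2 * π + 2) * (κ * δ / 20)) = (2 * π + 2) * δ / 10 := by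
    field_simp
    ring
  rw [h7]
  nlinarith

end

end Pool.Agent.TH263.MI.Circ
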